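import Mathlib

/-!
Project SG (MP_66bcf1_co), package SUN (helper33): source functions on `k`-sets and a family `XX` of
`s`-sets none of which contains the source of a larger set: `#E ≤ C #XX` implies that `#XX` is bounded.
-/

set_option autoImplicit false

open Finset

namespace Pool.Agent.Helper33.SG

/-- independent sets in digraphs of bounded out-degree -/
theorem indep {α : Type*} [DecidableEq α] (D : ℕ) (R : α → α → Prop) [DecidableRel R] :
    ∀ (t : ℕ) (A : Finset α), (∀ a ∈ A, #(A.filter fun b => R a b) ≤ D) →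
      (2 * D + 1) * t ≤ #A → ∃ I ⊆ A, #I = t ∧ ∀ a ∈ I, ∀ b ∈ I, a ≠ b → ¬ R a b := by
  intro t
  induction t with
  | zero => exact fun A _ _ => ⟨∅, empty_subset _, rfl, by simp⟩
  | succ t ih =>
    intro A hA ht
    have hne : A.Nonempty := by
      rw [← card_pos]
      nlinarith
    have hsum : ∑ b ∈ A, #(A.filter fun a => R a b) ≤ ∑ _b ∈ A, D := by
      have h1 := Finset.sum_card_bipartiteAbove_eq_sum_card_bipartiteBelow (s := A) (t := A) R
      calc ∑ b ∈ A, #(A.filter fun a => R a b) = ∑ a ∈ A, #(A.filter fun b => R a b) := h1.symm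
        _ ≤ _ := sum_le_sum hA
    obtain ⟨b, hb, hbD⟩ := exists_le_of_sum_le hne hsum
    set A' := A.filter fun a => a ≠ b ∧ ¬ R a b ∧ ¬ R b a with hA'
    have hsub : A ⊆ A' ∪ ({b} ∪ (A.filter (fun a => R a b) ∪ A.filter (fun a => R b a))) := by
      intro a ha
      simp only [mem_union, mem_singleton, mem_filter, hA']
      tauto
    have hcard : #A ≤ #A' + (2 * D + 1) := by
      have h2 := card_le_card hsub
      have h3 := card_union_le A' ({b} ∪ (A.filter (fun a => R a b) ∪ A.filter (fun a => R b a)))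
      have h4 := card_union_le {b} (A.filter (fun a => R a b) ∪ A.filter (fun a => R b a))
      have h5 := card_union_le (A.filter (fun a => R a b)) (A.filter (fun a => R b a))
      have h6 := hA b hb
      rw [card_singleton] at h4
      omega
    obtain ⟨I, hI, hIt, hII⟩ := ih A' (fun a ha => (card_le_card (filter_subset_filter _
      (filter_subset _ _))).trans (hA a (mem_filter.mp ha).1)) (by
        have : (2 * D + 1) * (t + 1) = (2 * D + 1) * t + (2 * D + 1) := by ring
        omega)
    have hbI : b ∉ I := fun h => (mem_filter.mp (hI h)).2.1 rfl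
    refine ⟨insert b I, ?_, ?_, ?_⟩
    · intro x hx
      rcases mem_insert.mp hx with rfl | hx
      · exact hb
      · exact (mem_filter.mp (hI hx)).1
    · rw [card_insert_of_notMem hbI, hIt]
    · intro x hx y hy hxy
      rcases mem_insert.mp hx with rfl | hx' <;> rcases mem_insert.mp hy with rfl | hy'
      · exact absurd rfl hxy
      · exact (mem_filter.mp (hI hy')).2.2.2
      · exact (mem_filter.mp (hI hx')).2.2.1
      · exact hII x hx' y hy' hxy

theorem typ_sum {V : Type} [DecidableEq V] (k j : ℕ) (E YY : Finset (Finset V))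
    (hE : ∀ S ∈ E, #S = k) (hY : ∀ X ∈ YY, ∀ X' ∈ YY, X ≠ X' → #(X ∩ X') < j) :
    ∑ X ∈ YY, #(E.filter fun S => j ≤ #(S ∩ X)) ≤ #E * k.choose j := by
  have h1 := Finset.sum_card_bipartiteAbove_eq_sum_card_bipartiteBelow (s := YY) (t := E)
    (fun X S => j ≤ #(S ∩ X))
  have h2 : ∑ X ∈ YY, #(E.filter fun S => j ≤ #(S ∩ X)) =
      ∑ S ∈ E, #(YY.filter fun X => j ≤ #(S ∩ X)) := h1
  rw [h2]
  have h3 : ∀ S ∈ E, #(YY.filter fun X => j ≤ #(S ∩ X)) ≤ k.choose j := by
    intro S hS
    have h4 : ∀ X : Finset V, ∃ J : Finset V, j ≤ #(S ∩ X) → J ⊆ S ∩ X ∧ #J = j := by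
      intro X
      by_cases h : j ≤ #(S ∩ X)
      · obtain ⟨J, hJ, hJ'⟩ := exists_subset_card_eq h
        exact ⟨J, fun _ => ⟨hJ, hJ'⟩⟩
      · exact ⟨∅, fun h' => absurd h' h⟩
    choose J hJ using h4
    rw [← hE S hS, ← card_powersetCard]
    apply card_le_card_of_injOn J
    · intro X hX
      have hX' := (mem_filter.mp (mem_coe.mp hX)).2
      rw [mem_coe, mem_powersetCard]
      exact ⟨(hJ X hX').1.trans inter_subset_left, (hJ X hX').2⟩
    · intro X hX X' hX' heq
      have h5 := mem_filter.mp (mem_coe.mp hX)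
      have h6 := mem_filter.mp (mem_coe.mp hX')
      by_contra hne
      have h7 := hY X h5.1 X' h6.1 hne
      have h8 : J X ⊆ X ∩ X' := by
        apply subset_inter
        · exact (hJ X h5.2).1.trans inter_subset_right
        · rw [heq]
          exact (hJ X' h6.2).1.trans inter_subset_right
      have h9 := card_le_card h8
      rw [(hJ X h5.2).2] at h9
      omega
  calc _ ≤ ∑ _S ∈ E, k.choose j := sum_le_sum h3
    _ = #E * k.choose j := by rw [sum_const, smul_eq_mul]

theorem markov {α : Type*} [DecidableEq α] (Y : Finset α) (g : α → ℕ) (M : ℕ)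
    (h : ∑ x ∈ Y, g x ≤ M * #Y) : #Y ≤ 2 * #(Y.filter fun x => g x ≤ 2 * M) := by
  have h1 := card_filter_add_card_filter_not (s := Y) (fun x => g x ≤ 2 * M)
  set b := #(Y.filter fun x => ¬ g x ≤ 2 * M) with hb
  have h2 : b * (2 * M + 1) ≤ ∑ x ∈ Y, g x := by
    calc b * (2 * M + 1) = ∑ _x ∈ Y.filter (fun x => ¬ g x ≤ 2 * M), (2 * M + 1) := by
          rw [sum_const, smul_eq_mul]
      _ ≤ ∑ x ∈ Y.filter (fun x => ¬ g x ≤ 2 * M), g x := by
          apply sum_le_sum
          intro x hx
          have := (mem_filter.mp hx).2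
          omega
      _ ≤ _ := sum_le_sum_of_subset (filter_subset _ _)
  have h3 : b * (2 * M + 1) ≤ M * #Y := h2.trans h
  have h4 : 2 * b ≤ #Y := by
    by_contra hcon
    push Not at hcon
    have h5 : #Y * (2 * M + 1) ≤ 2 * b * (2 * M + 1) := Nat.mul_le_mul_right _ hcon.le
    have h6 : (#Y + 1) * (2 * M + 1) ≤ 2 * b * (2 * M + 1) := Nat.mul_le_mul_right _ hcon
    nlinarith
  omega

/-- the hypotheses -/
structure Hyp {V : Type} [DecidableEq V] (k s C : ℕ) (E XX : Finset (Finset V))
    (f : Finset V → V) : Prop where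
  hE : ∀ S ∈ E, #S = k
  hX : ∀ X ∈ XX, #X = s
  mem : ∀ S, #S = k → S ∉ E → f S ∈ S
  con : ∀ S S', #S = k → #S' = k → S ∉ E → S' ∉ E → #(S ∩ S') + 1 = k → f S ∈ S' → f S' ∈ S →
    f S = f S'
  out : ∀ X ∈ XX, ∀ S, #S = k → S ∉ E → X ⊆ S → f S ∉ X
  le : #E ≤ C * #XX

theorem kernel {V : Type} [DecidableEq V] {k s C : ℕ} (hs : s < k) {E XX : Finset (Finset V)}
    {f : Finset V → V} (H : Hyp k s C E XX f) (j D : ℕ) (hj : j + 1 ≤ s)
    (YY : Finset (Finset V)) (hYX : YY ⊆ XX)
    (hY : ∀ X ∈ YY, ∀ X' ∈ YY, X ≠ X' → #(X ∩ X') < j + 1)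
    (hT : ∀ X ∈ YY, #(E.filter fun S => j + 1 ≤ #(S ∩ X)) ≤ D) (K : Finset V) (hK : #K = j) :
    #(YY.filter fun X => K ⊆ X) < (2 * (D * k) + 1) * (k - j) := by
  classical
  by_contra hcon
  push Not at hcon
  set YK := YY.filter fun X => K ⊆ X with hYK
  -- petals are disjoint
  have hpet : ∀ X ∈ YK, ∀ X' ∈ YK, X ≠ X' → X ∩ X' = K := by
    intro X hX X' hX' hne
    have h1 := mem_filter.mp hX
    have h2 := mem_filter.mp hX'
    have h3 : K ⊆ X ∩ X' := subset_inter h1.2 h2.2
    have h4 := hY X h1.1 X' h2.1 hne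
    exact (eq_of_subset_of_card_le h3 (by omega)).symm
  obtain ⟨I, hI, hIt, hII⟩ := indep (D * k)
    (fun X X' : Finset V => X ≠ X' ∧ ∃ S ∈ E, j + 1 ≤ #(S ∩ X) ∧ ∃ y ∈ S, y ∈ X' ∧ y ∉ K)
    (k - j) YK (by
      intro X hX
      have h1 : YK.filter (fun X' => X ≠ X' ∧ ∃ S ∈ E, j + 1 ≤ #(S ∩ X) ∧
          ∃ y ∈ S, y ∈ X' ∧ y ∉ K) ⊆ (E.filter fun S => j + 1 ≤ #(S ∩ X)).biUnion
            (fun S => YK.filter fun X' => ∃ y ∈ S, y ∈ X' ∧ y ∉ K) := by
        intro X' hX'
        obtain ⟨h2, h3, S, hS, h4, h5⟩ := mem_filter.mp hX'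
        exact mem_biUnion.mpr ⟨S, mem_filter.mpr ⟨hS, h4⟩, mem_filter.mpr ⟨h2, h5⟩⟩
      refine (card_le_card h1).trans (card_biUnion_le.trans ?_)
      calc _ ≤ ∑ _S ∈ E.filter (fun S => j + 1 ≤ #(S ∩ X)), k := by
            apply sum_le_sum
            intro S hS
            have hSk := H.hE S (mem_filter.mp hS).1
            have h6 : ∀ X' : Finset V, ∃ y : V, (∃ y ∈ S, y ∈ X' ∧ y ∉ K) →
                y ∈ S ∧ y ∈ X' ∧ y ∉ K := by
              intro X'
              by_cases h : ∃ y ∈ S, y ∈ X' ∧ y ∉ K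
              · obtain ⟨y, hy⟩ := h
                exact ⟨y, fun _ => hy⟩
              · obtain ⟨x, -⟩ : X.Nonempty := by
                  rw [← card_pos, H.hX X (hYX (mem_filter.mp hX).1)]
                  omega
                exact ⟨x, fun h' => absurd h' h⟩
            choose y hy using h6
            rw [← hSk]
            apply card_le_card_of_injOn y
            · intro X' hX'
              exact (hy X' (mem_filter.mp (mem_coe.mp hX')).2).1
            · intro X' hX' X'' hX'' heq
              have h7 := mem_filter.mp (mem_coe.mp hX')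
              have h8 := mem_filter.mp (mem_coe.mp hX'')
              by_contra hne
              have h9 := hpet X' h7.1 X'' h8.1 hne
              have h10 := hy X' h7.2
              have h11 := hy X'' h8.2
              apply h10.2.2
              rw [← h9, mem_inter]
              exact ⟨h10.2.1, by rw [heq]; exact h11.2.1⟩
        _ = #(E.filter fun S => j + 1 ≤ #(S ∩ X)) * k := by rw [sum_const, smul_eq_mul]
        _ ≤ D * k := Nat.mul_le_mul_right _ (hT X (mem_filter.mp hX).1)) hcon
  set U := I.biUnion id with hU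
  have hXs : ∀ X ∈ I, #X = s := fun X hX => H.hX X (hYX (mem_filter.mp (hI hX)).1)
  have hKX : ∀ X ∈ I, K ⊆ X := fun X hX => (mem_filter.mp (hI hX)).2
  have hG : ∀ S, #S = k → S ⊆ U → ∀ X ∈ I, j + 1 ≤ #(S ∩ X) → S ∉ E := by
    intro S hS hSU X hX hj' hSE
    obtain ⟨y, hy, hyX⟩ : ∃ y ∈ S, y ∉ X := by
      by_contra hc
      push Not at hc
      have := card_le_card (show S ⊆ X from hc)
      rw [hXs X hX] at this
      omega
    obtain ⟨X', hX', hy'⟩ := mem_biUnion.mp (hSU hy)
    have hne : X ≠ X' := fun h => hyX (h ▸ hy')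
    exact hII X hX X' hX' hne ⟨hne, S, hSE, hj', y, hy, hy', fun hyK => hyX (hKX X hX hyK)⟩
  have hA : ∀ (i : ℕ) (S : Finset V), #S = k → S ⊆ U → ∀ X ∈ I, j + 1 ≤ #(S ∩ X) →
      #(S ∩ X) + i = s → f S ∉ X := by
    intro i
    induction i with
    | zero =>
      intro S hS hSU X hX hj' hi
      have h1 : S ∩ X = X := eq_of_subset_of_card_le inter_subset_right (by
        rw [hXs X hX]; omega)
      exact H.out X (hYX (mem_filter.mp (hI hX)).1) S hS (hG S hS hSU X hX hj')
        (inter_eq_right.mp h1)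
    | succ i ih =>
      intro S hS hSU X hX hj' hi hfX
      obtain ⟨x', hx', hx'S⟩ : ∃ y ∈ X, y ∉ S := by
        by_contra hc
        push Not at hc
        have h1 : S ∩ X = X := inter_eq_right.mpr hc
        rw [h1, hXs X hX] at hi
        omega
      obtain ⟨r, hr, hrX⟩ : ∃ y ∈ S, y ∉ X := by
        by_contra hc
        push Not at hc
        have := card_le_card (show S ⊆ X from hc)
        rw [hXs X hX] at this
        omega
      set S' := insert x' (S.erase r) with hS'
      have hx'e : x' ∉ S.erase r := fun h => hx'S (mem_of_mem_erase h)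
      have hS'k : #S' = k := by
        rw [hS', card_insert_of_notMem hx'e, card_erase_of_mem hr]
        omega
      have hS'U : S' ⊆ U := by
        intro z hz
        rcases mem_insert.mp hz with rfl | hz
        · exact mem_biUnion.mpr ⟨X, hX, hx'⟩
        · exact hSU (mem_of_mem_erase hz)
      have hS'X : S' ∩ X = insert x' (S ∩ X) := by
        ext z
        simp only [hS', mem_inter, mem_insert, mem_erase]
        constructor
        · rintro ⟨rfl | ⟨_, h2⟩, h3⟩
          · exact Or.inl rfl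
          · exact Or.inr ⟨h2, h3⟩
        · rintro (rfl | ⟨h2, h3⟩)
          · exact ⟨Or.inl rfl, hx'⟩
          · exact ⟨Or.inr ⟨fun h => hrX (h ▸ h3), h2⟩, h3⟩
      have hS'c : #(S' ∩ X) = #(S ∩ X) + 1 := by
        rw [hS'X, card_insert_of_notMem fun h => hx'S (mem_inter.mp h).1]
      have h1 := ih S' hS'k hS'U X hX (by omega) (by omega)
      have hSE := hG S hS hSU X hX hj'
      have hS'E := hG S' hS'k hS'U X hX (by omega)
      have h2 : f S ∈ S' := by
        refine mem_insert_of_mem (mem_erase.mpr ⟨fun h => hrX (h ▸ hfX), H.mem S hS hSE⟩)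
      have h3 : f S' ∈ S := by
        rcases mem_insert.mp (H.mem S' hS'k hS'E) with h4 | h4
        · exact absurd (h4 ▸ hx') h1
        · exact mem_of_mem_erase h4
      have h4 : S ∩ S' = S.erase r := by
        ext z
        simp only [hS', mem_inter, mem_insert, mem_erase]
        constructor
        · rintro ⟨h5, rfl | h6⟩
          · exact absurd h5 hx'S
          · exact h6
        · intro h5
          exact ⟨h5.2, Or.inr h5⟩
      have h5 : #(S ∩ S') + 1 = k := by
        rw [h4, card_erase_of_mem hr]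
        omega
      exact h1 (H.con S S' hS hS'k hSE hS'E h5 h2 h3 ▸ hfX)
  -- the set `S₀`
  have hp : ∀ X : Finset V, ∃ p : V, X ∈ I → p ∈ X ∧ p ∉ K := by
    intro X
    by_cases hX : X ∈ I
    · obtain ⟨p, hp, hpK⟩ : ∃ p ∈ X, p ∉ K := by
        by_contra hc
        push Not at hc
        have := card_le_card (show X ⊆ K from hc)
        rw [hXs X hX] at this
        omega
      exact ⟨p, fun _ => ⟨hp, hpK⟩⟩
    · have hIne : I.Nonempty := by
        rw [← card_pos]; omega
      obtain ⟨X', hX'⟩ := hIne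
      obtain ⟨x, -⟩ : X'.Nonempty := by
        rw [← card_pos, hXs X' hX']
        omega
      exact ⟨x, fun h => absurd h hX⟩
  choose p hp using hp
  have hinj : Set.InjOn p (I : Set (Finset V)) := by
    intro X hX X' hX' heq
    by_contra hne
    have h1 := hpet X (hI hX) X' (hI hX') hne
    have h2 := hp X hX
    have h3 := hp X' hX'
    apply h2.2
    rw [← h1, mem_inter]
    exact ⟨h2.1, by rw [heq]; exact h3.1⟩
  set S₀ := K ∪ I.image p with hS₀
  have hdis : Disjoint K (I.image p) := by
    rw [disjoint_left]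
    intro z hz hz'
    obtain ⟨X, hX, rfl⟩ := mem_image.mp hz'
    exact (hp X hX).2 hz
  have hS₀k : #S₀ = k := by
    rw [hS₀, card_union_of_disjoint hdis, card_image_of_injOn hinj, hK, hIt]
    omega
  have hS₀U : S₀ ⊆ U := by
    apply union_subset
    · have hIne : I.Nonempty := by
        rw [← card_pos]; omega
      obtain ⟨X', hX'⟩ := hIne
      exact (hKX X' hX').trans (subset_biUnion_of_mem id hX')
    · intro z hz
      obtain ⟨X, hX, rfl⟩ := mem_image.mp hz
      exact mem_biUnion.mpr ⟨X, hX, (hp X hX).1⟩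
  have hS₀X : ∀ X ∈ I, j + 1 ≤ #(S₀ ∩ X) := by
    intro X hX
    have h1 : insert (p X) K ⊆ S₀ ∩ X := by
      intro z hz
      rcases mem_insert.mp hz with rfl | hz
      · exact mem_inter.mpr ⟨mem_union_right _ (mem_image_of_mem p hX), (hp X hX).1⟩
      · exact mem_inter.mpr ⟨mem_union_left _ hz, hKX X hX hz⟩
    have h2 := card_le_card h1
    rw [card_insert_of_notMem (hp X hX).2, hK] at h2
    exact h2
  have hIne : I.Nonempty := by
    rw [← card_pos]; omega
  obtain ⟨X₀, hX₀⟩ := hIne
  have hfm := H.mem S₀ hS₀k (hG S₀ hS₀k hS₀U X₀ hX₀ (hS₀X X₀ hX₀))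
  obtain ⟨X, hX, hfX⟩ := mem_biUnion.mp (hS₀U hfm)
  have h1 := card_le_card (inter_subset_right : S₀ ∩ X ⊆ X)
  rw [hXs X hX] at h1
  exact hA (s - #(S₀ ∩ X)) S₀ hS₀k hS₀U X hX (hS₀X X hX) (by omega) hfX

theorem stage (k s C : ℕ) (hs : s < k) : ∀ i ≤ s, ∃ B : ℕ, ∀ (V : Type) [DecidableEq V]
    (E XX : Finset (Finset V)) (f : Finset V → V), Hyp k s C E XX f →
    ∃ YY ⊆ XX, #XX ≤ B * #YY ∧ ∀ X ∈ YY, ∀ X' ∈ YY, X ≠ X' → #(X ∩ X') < s - i := by
  intro i
  induction i with
  | zero =>
    intro _
    refine ⟨1, fun V _ E XX f H => ⟨XX, Subset.refl _, by omega, ?_⟩⟩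
    intro X hX X' hX' hne
    by_contra hc
    push Not at hc
    apply hne
    have h1 : X ∩ X' = X := eq_of_subset_of_card_le inter_subset_left (by
      rw [H.hX X hX]; omega)
    have h2 : X ∩ X' = X' := eq_of_subset_of_card_le inter_subset_right (by
      rw [H.hX X' hX']; omega)
    rw [← h1, h2]
  | succ i ih =>
    intro hi
    obtain ⟨B, hB⟩ := ih (by omega)
    set j := s - (i + 1) with hj
    have hj1 : s - i = j + 1 := by omega
    set M := C * B * k.choose (j + 1) with hM
    set N := (2 * (2 * M * k) + 1) * (k - j) with hN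
    refine ⟨B * (2 * (s.choose j * N)), fun V _ E XX f H => ?_⟩
    classical
    obtain ⟨YY, hYX, hle, hY⟩ := hB V E XX f H
    rw [hj1] at hY
    -- typical members
    set YT := YY.filter fun X => #(E.filter fun S => j + 1 ≤ #(S ∩ X)) ≤ 2 * M with hYT
    have hsum : ∑ X ∈ YY, #(E.filter fun S => j + 1 ≤ #(S ∩ X)) ≤ M * #YY := by
      refine (typ_sum k (j + 1) E YY H.hE hY).trans ?_
      calc #E * k.choose (j + 1) ≤ (C * (B * #YY)) * k.choose (j + 1) :=
            Nat.mul_le_mul_right _ (H.le.trans (Nat.mul_le_mul_left _ hle))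
        _ = M * #YY := by rw [hM]; ring
    have hYT2 : #YY ≤ 2 * #YT := markov YY _ M hsum
    have hker : ∀ K : Finset V, #K = j → #(YT.filter fun X => K ⊆ X) < N := by
      intro K hK
      exact kernel hs H j (2 * M) (by omega) YT ((filter_subset _ _).trans hYX)
        (fun X hX X' hX' hne => hY X (mem_filter.mp hX).1 X' (mem_filter.mp hX').1 hne)
        (fun X hX => (mem_filter.mp hX).2) K hK
    -- a maximal subfamily
    obtain ⟨Z, hZ, hZmax⟩ := exists_max_image
      (YT.powerset.filter fun Z => ∀ X ∈ Z, ∀ X' ∈ Z, X ≠ X' → #(X ∩ X') < j) card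
      ⟨∅, mem_filter.mpr ⟨empty_mem_powerset _, by simp⟩⟩
    obtain ⟨hZY, hZp⟩ := mem_filter.mp hZ
    rw [mem_powerset] at hZY
    refine ⟨Z, hZY.trans ((filter_subset _ _).trans hYX), ?_, hZp⟩
    have hcov : YT ⊆ Z.biUnion fun X' => (powersetCard j X').biUnion fun K =>
        YT.filter fun X => K ⊆ X := by
      intro X hX
      rw [mem_biUnion]
      obtain ⟨X', hX', hXX'⟩ : ∃ X' ∈ Z, j ≤ #(X ∩ X') := by
        by_contra hc
        push Not at hc
        by_cases hXZ : X ∈ Z
        · have h1 := hc X hXZ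
          rw [inter_self, H.hX X (hYX (mem_filter.mp hX).1)] at h1
          omega
        · have h2 := hZmax (insert X Z) (mem_filter.mpr ⟨mem_powerset.mpr
            (insert_subset hX hZY), by
              intro A hA A' hA' hne
              rcases mem_insert.mp hA with h3 | h3 <;> rcases mem_insert.mp hA' with h4 | h4
              · exact absurd (h3.trans h4.symm) hne
              · rw [h3]; exact hc A' h4
              · rw [inter_comm, h4]; exact hc A h3
              · exact hZp A h3 A' h4 hne⟩)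
          rw [card_insert_of_notMem hXZ] at h2
          omega
      obtain ⟨K, hK, hKj⟩ := exists_subset_card_eq hXX'
      exact ⟨X', hX', mem_biUnion.mpr ⟨K, mem_powersetCard.mpr
        ⟨hK.trans inter_subset_right, hKj⟩, mem_filter.mpr ⟨hX, hK.trans inter_subset_left⟩⟩⟩
    have hYTc : #YT ≤ s.choose j * N * #Z := by
      refine (card_le_card hcov).trans (card_biUnion_le.trans ?_)
      calc _ ≤ ∑ _X' ∈ Z, s.choose j * N := by
            apply sum_le_sum
            intro X' hX'
            refine card_biUnion_le.trans ?_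
            calc _ ≤ ∑ _K ∈ powersetCard j X', N := by
                  apply sum_le_sum
                  intro K hK
                  exact (hker K (mem_powersetCard.mp hK).2).le
              _ = s.choose j * N := by
                  rw [sum_const, smul_eq_mul, card_powersetCard,
                    H.hX X' (hYX (mem_filter.mp (hZY hX')).1)]
        _ = s.choose j * N * #Z := by rw [sum_const, smul_eq_mul, mul_comm]
    calc #XX ≤ B * #YY := hle
      _ ≤ B * (2 * (s.choose j * N * #Z)) :=
          Nat.mul_le_mul_left _ (hYT2.trans (Nat.mul_le_mul_left _ hYTc))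
      _ = B * (2 * (s.choose j * N)) * #Z := by ring

theorem sun (k s C : ℕ) (hs : s < k) : ∃ B : ℕ, ∀ (V : Type) [DecidableEq V]
    (E XX : Finset (Finset V)) (f : Finset V → V), Hyp k s C E XX f → #XX ≤ B := by
  obtain ⟨B, hB⟩ := stage k s C hs s le_rfl
  refine ⟨B, fun V _ E XX f H => ?_⟩
  obtain ⟨YY, -, hle, hY⟩ := hB V E XX f H
  have h1 : #YY ≤ 1 := by
    rw [card_le_one]
    intro X hX X' hX'
    by_contra hne
    have := hY X hX X' hX' hne
    omega
  calc #XX ≤ B * #YY := hle
    _ ≤ B * 1 := Nat.mul_le_mul_left _ h1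
    _ = B := mul_one _

end Pool.Agent.Helper33.SG
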