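import Pool.Agent.Helper86.SG.Defs
import Pool.Agent.Helper33.SG.SUN

/-!
Project SG (MP_66bcf1_co), package BOUND (helper33).
-/

set_option autoImplicit false

open Finset _root_.SG

namespace Pool.Agent.Helper33.SG

theorem bound (hSUM : SUMStm) (hUP : UPStm) (hLOW : LOWStm) (hCLS : CLSStm) (hSRC : SRCStm)
    (hRUL : RULStm) : BOUNDStm := by
  classical
  intro k d hk
  set s := 2 * d + 2 with hs
  set r := k - s with hr
  set M := 2 * (2 ^ s * r ^ 2 * k.choose s * (1 + 2 ^ k)) with hM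
  obtain ⟨B, hB⟩ := sun k s ((1 + 2 ^ k) * (2 * M.choose r)) (by omega)
  refine ⟨(1 + 2 ^ k) * (2 * M.choose r) * B, fun n F hF hle => ?_⟩
  have hV : ∀ v ∈ F, SJ.IsV n k v := hF.1
  have hMpos : 0 < M := by
    have h1 : 0 < r := by omega
    have h2 : 0 < k.choose s := Nat.choose_pos (by omega)
    positivity
  -- the exceptional sets
  have hEXk : ∀ S ∈ EX k d F, #S = k := by
    intro S hS
    rcases mem_union.mp hS with h | h
    · exact (mem_powersetCard.mp (mem_filter.mp h).1).2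
    · exact (mem_powersetCard.mp (mem_filter.mp h).1).2
  have hEX : #(EX k d F) ≤ (1 + 2 ^ k) * #(HH k d F) := by
    have h1 := hSUM n k d F hk hV
    have h2 : #(EX k d F) ≤ #(HH k d F) + #(LL k d F) := card_union_le _ _
    have h3 : (1 + 2 ^ k) * #(HH k d F) = #(HH k d F) + 2 ^ k * #(HH k d F) := by ring
    omega
  -- the clashing sets
  set 𝒜 : Finset (Finset (Fin n)) :=
    (powersetCard s univ).filter (fun A => ∃ v ∈ F, Clash F v A) with h𝒜
  have h𝒜s : ∀ A ∈ 𝒜, #A = s := fun A hA => (mem_powersetCard.mp (mem_filter.mp hA).1).2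
  have h𝒜c : ∀ A ∈ 𝒜, ∃ v ∈ F, Clash F v A := fun A hA => (mem_filter.mp hA).2
  have hHH : #(HH k d F) ≤ ∑ A ∈ 𝒜, #(cP F A) := by
    have h1 : HH k d F ⊆ 𝒜.biUnion (cP F) := by
      intro S hS
      obtain ⟨-, v, hv, hvS, A, hA, hcl⟩ := mem_filter.mp hS
      rw [mem_biUnion]
      refine ⟨A, mem_filter.mpr ⟨mem_powersetCard.mpr ⟨subset_univ _, hA⟩, v, hv, hcl⟩, ?_⟩
      exact mem_image.mpr ⟨v, mem_filter.mpr ⟨hv, hcl⟩, hvS⟩
    exact (card_le_card h1).trans card_biUnion_le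
  have hexP : ∑ A ∈ 𝒜, #(exP k d F A) ≤ k.choose s * #(EX k d F) := by
    have h1 : ∀ A ∈ 𝒜, #(exP k d F A) ≤ #((EX k d F).filter fun S => A ⊆ S) := by
      intro A _
      apply card_le_card
      intro S hS
      have h2 := mem_filter.mp hS
      exact mem_filter.mpr h2
    have h2 := Finset.sum_card_bipartiteAbove_eq_sum_card_bipartiteBelow (s := 𝒜)
      (t := EX k d F) (fun A S => A ⊆ S)
    calc ∑ A ∈ 𝒜, #(exP k d F A) ≤ ∑ A ∈ 𝒜, #((EX k d F).filter fun S => A ⊆ S) :=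
          sum_le_sum h1
      _ = ∑ S ∈ EX k d F, #(𝒜.filter fun A => A ⊆ S) := h2
      _ ≤ ∑ _S ∈ EX k d F, k.choose s := by
          apply sum_le_sum
          intro S hS
          rw [← hEXk S hS, ← card_powersetCard]
          apply card_le_card
          intro A hA
          have h3 := mem_filter.mp hA
          exact mem_powersetCard.mpr ⟨h3.2, h𝒜s A h3.1⟩
      _ = k.choose s * #(EX k d F) := by rw [sum_const, smul_eq_mul, mul_comm]
  -- the two bounds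
  set big := 𝒜.filter (fun A => M < n - s - #(DD F A)) with hbig
  set XX := 𝒜.filter (fun A => ¬ M < n - s - #(DD F A)) with hXX
  have hsplit : ∑ A ∈ 𝒜, #(cP F A) = ∑ A ∈ big, #(cP F A) + ∑ A ∈ XX, #(cP F A) :=
    (sum_filter_add_sum_filter_not 𝒜 _ _).symm
  have hbigA : ∀ A ∈ big, M * #(cP F A) ≤ 2 ^ s * r ^ 2 * #(exP k d F A) := by
    intro A hA
    obtain ⟨hA1, hA2⟩ := mem_filter.mp hA
    obtain ⟨v, hv, hcl⟩ := h𝒜c A hA1
    obtain ⟨μ, hμ, hμ2⟩ := hLOW n k d F hk hV A (h𝒜s A hA1) v hv hcl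
    obtain ⟨h1, -⟩ := hUP n k d F hk hF A (h𝒜s A hA1) μ hμ
    have hμM : M < μ := by omega
    have h3 : μ * (μ - 1).choose (r - 1) = μ.choose r * r := by
      have h4 := Nat.add_one_mul_choose_eq (μ - 1) (r - 1)
      have h5 : μ - 1 + 1 = μ := by omega
      have h6 : r - 1 + 1 = r := by omega
      rw [h5, h6] at h4
      exact h4
    calc M * #(cP F A) ≤ μ * (2 ^ s * (r * (μ - 1).choose (r - 1))) :=
          Nat.mul_le_mul hμM.le h1
      _ = 2 ^ s * r * (μ * (μ - 1).choose (r - 1)) := by ring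
      _ = 2 ^ s * r ^ 2 * μ.choose r := by rw [h3]; ring
      _ ≤ 2 ^ s * r ^ 2 * #(exP k d F A) := Nat.mul_le_mul_left _ hμ2
  have hbigS : 2 * ∑ A ∈ big, #(cP F A) ≤ #(HH k d F) := by
    have h1 : M * (2 * ∑ A ∈ big, #(cP F A)) ≤ M * #(HH k d F) := by
      calc M * (2 * ∑ A ∈ big, #(cP F A)) = 2 * ∑ A ∈ big, M * #(cP F A) := by
            rw [← mul_sum]; ring
        _ ≤ 2 * ∑ A ∈ big, 2 ^ s * r ^ 2 * #(exP k d F A) :=
            Nat.mul_le_mul_left _ (sum_le_sum hbigA)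
        _ ≤ 2 * ∑ A ∈ 𝒜, 2 ^ s * r ^ 2 * #(exP k d F A) :=
            Nat.mul_le_mul_left _ (sum_le_sum_of_subset (filter_subset _ _))
        _ = 2 * (2 ^ s * r ^ 2) * ∑ A ∈ 𝒜, #(exP k d F A) := by rw [← mul_sum]; ring
        _ ≤ 2 * (2 ^ s * r ^ 2) * (k.choose s * ((1 + 2 ^ k) * #(HH k d F))) :=
            Nat.mul_le_mul_left _ (hexP.trans (Nat.mul_le_mul_left _ hEX))
        _ = M * #(HH k d F) := by rw [hM]; ring
    exact Nat.le_of_mul_le_mul_left h1 hMpos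
  have hsmall : ∑ A ∈ XX, #(cP F A) ≤ M.choose r * #XX := by
    calc ∑ A ∈ XX, #(cP F A) ≤ ∑ _A ∈ XX, M.choose r := by
          apply sum_le_sum
          intro A hA
          obtain ⟨hA1, hA2⟩ := mem_filter.mp hA
          obtain ⟨v, hv, hcl⟩ := h𝒜c A hA1
          obtain ⟨μ, hμ, -⟩ := hLOW n k d F hk hV A (h𝒜s A hA1) v hv hcl
          obtain ⟨-, h1⟩ := hUP n k d F hk hF A (h𝒜s A hA1) μ hμ
          exact h1.trans (Nat.choose_le_choose _ (by omega))
      _ = M.choose r * #XX := by rw [sum_const, smul_eq_mul, mul_comm]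
  have hHX : #(HH k d F) ≤ 2 * M.choose r * #XX := by
    have h1 : 2 * M.choose r * #XX = 2 * (M.choose r * #XX) := by ring
    omega
  have hEXX : #(EX k d F) ≤ (1 + 2 ^ k) * (2 * M.choose r) * #XX := by
    refine hEX.trans ((Nat.mul_le_mul_left _ hHX).trans (le_of_eq ?_))
    ring
  refine hEXX.trans (Nat.mul_le_mul_left _ ?_)
  -- the source function
  by_cases hXne : XX = ∅
  · rw [hXne, card_empty]
    exact Nat.zero_le _
  obtain ⟨A₀, hA₀⟩ := nonempty_iff_ne_empty.mpr hXne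
  obtain ⟨x₀, -⟩ : A₀.Nonempty := by
    rw [← card_pos, h𝒜s A₀ (mem_filter.mp hA₀).1]
    omega
  have hf : ∀ S : Finset (Fin n), ∃ f : Fin n, #S = k → S ∉ EX k d F → ∃ c, Str k d F S f c := by
    intro S
    by_cases h : #S = k ∧ S ∉ EX k d F
    · obtain ⟨f, c, hfc⟩ := (hSRC n k d F hk hV S h.1).2 h.2
      exact ⟨f, fun _ _ => ⟨c, hfc⟩⟩
    · exact ⟨x₀, fun h1 h2 => absurd ⟨h1, h2⟩ h⟩
  choose f hf using hf
  have hHHE : ∀ S, S ∉ EX k d F → S ∉ HH k d F := fun S hS h => hS (mem_union_left _ h)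
  refine hB (Fin n) (EX k d F) XX f ⟨hEXk, fun X hX => h𝒜s X (mem_filter.mp hX).1, ?_, ?_, ?_,
    hEXX⟩
  · intro S hS hSE
    obtain ⟨c, hc⟩ := hf S hS hSE
    exact hc.1
  · intro S S' hS hS' hSE hS'E hcard h1 h2
    obtain ⟨c, hc⟩ := hf S hS hSE
    obtain ⟨c', hc'⟩ := hf S' hS' hS'E
    exact (hRUL n k d F hk hV S S' hS hS' (hHHE S hSE) (by omega) _ _ c c' hc hc').1 h1 h2
  · intro X hX S hS hSE hXS hfX
    obtain ⟨c, hc⟩ := hf S hS hSE
    obtain ⟨v, hv, hcl⟩ := h𝒜c X (mem_filter.mp hX).1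
    have h1 := hCLS n k d F hk hV X (h𝒜s X (mem_filter.mp hX).1) v hv hcl S hS (hHHE S hSE) hXS
      _ c hc
    exact (mem_filter.mp h1).2.1 hfX

end Pool.Agent.Helper33.SG
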